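import Pool.Agent.N585.FP.Defs

/-!
Project FP (helper585), task FP/4: the degrees are at most 16 (written by helper196).
-/

set_option autoImplicit false

namespace Pool.Agent.N196.FP4

open Pool.Agent.N585.FP

theorem star (F : ℕ → ℕ → Prop) (h : ∀ a c a' c', F a c → F a' c' → a = a' ∨ c = c') :
    ∃ a₀ r, ∀ a c, F a c → a ≠ a₀ → c = r := by
  by_cases hne : ∃ a c, F a c
  · obtain ⟨a₀, c₀, h0⟩ := hne
    by_cases hall : ∀ a c, F a c → c = c₀
    · exact ⟨a₀, c₀, fun a c hac _ => hall a c hac⟩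
    · push Not at hall
      obtain ⟨a₁, c₁, h1, hc1⟩ := hall
      refine ⟨a₀, c₀, fun a c hac hne => ?_⟩
      exact (h a c a₀ c₀ hac h0).resolve_left hne
  · push Not at hne
    exact ⟨0, 0, fun a c hac => absurd hac (hne a c)⟩

theorem swap {G : SimpleGraph ℕ} {U : Finset ℕ} {side : ℕ → Bool} {p : ℕ → ℕ}
    (h : Draw G U side p) : Draw G U (fun x => !side x) p := by
  refine ⟨h.inj, fun x hx y hy hxy => ?_, ?_⟩
  · have := h.bip x hx y hy hxy
    simpa using this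
  · intro a b a₁ b₁ a₂ b₂ h0 h1 h2 c1 c2
    have e : ∀ a b, Ed G U (fun x => !side x) a b → Ed G U side b a := by
      rintro a b ⟨k1, k2, k3, k4, k5⟩
      exact ⟨k2, k1, by simpa using k4, by simpa using k3, k5.symm⟩
    have e2 : ∀ a b a' b', Cross p a b a' b' → Cross p b a b' a' := by
      rintro a b a' b' (⟨k1, k2⟩ | ⟨k1, k2⟩)
      · exact Or.inr ⟨k2, k1⟩
      · exact Or.inl ⟨k2, k1⟩
    exact (h.fan b a b₁ a₁ b₂ a₂ (e _ _ h0) (e _ _ h1) (e _ _ h2) (e2 _ _ _ _ c1)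
      (e2 _ _ _ _ c2)).symm

theorem main {G : SimpleGraph ℕ} {U : Finset ℕ} {side : ℕ → Bool} {p : ℕ → ℕ}
    (hN : NoFour G U) (h : Draw G U side p) (b : ℕ) (hb : b ∈ U) (hs : side b = false)
    (S : Finset ℕ) (hSU : S ⊆ U) (hS : ∀ y ∈ S, G.Adj b y) : S.card ≤ 16 := by
  classical
  by_contra hcard
  push Not at hcard
  have hne : S.Nonempty := Finset.card_pos.mp (by omega)
  obtain ⟨a₁, ha₁, hmin⟩ := Finset.exists_min_image S p hne
  obtain ⟨a₂, ha₂, hmax⟩ := Finset.exists_max_image S p hne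
  have htop : ∀ a ∈ S, side a = true := by
    intro a ha
    have := h.bip b hb a (hSU ha) (hS a ha)
    rw [hs] at this
    cases hh : side a
    · rw [hh] at this; exact absurd rfl this
    · rfl
  have hEb : ∀ a ∈ S, Ed G U side a b := fun a ha =>
    ⟨hSU ha, hb, htop a ha, hs, (hS a ha).symm⟩
  have hE : ∀ a ∈ S, ∀ c ∈ U, G.Adj a c → Ed G U side a c := by
    intro a ha c hc hac
    refine ⟨hSU ha, hc, htop a ha, ?_, hac⟩
    have := h.bip a (hSU ha) c hc hac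
    rw [htop a ha] at this
    cases hh : side c
    · rfl
    · rw [hh] at this; exact absurd rfl this
  obtain ⟨x₁, r, hr⟩ := star (fun a c => a ∈ S ∧ a ≠ a₂ ∧ c ∈ U ∧ G.Adj a c ∧ p b < p c) (by
    rintro a c a' c' ⟨k1, k2, k3, k4, k5⟩ ⟨l1, l2, l3, l4, l5⟩
    have hlt : ∀ a ∈ S, a ≠ a₂ → p a < p a₂ := fun a ha hne =>
      lt_of_le_of_ne (hmax a ha) (fun he => hne (h.inj a (hSU ha) a₂ (hSU ha₂) he))
    exact h.fan a₂ b a c a' c' (hEb a₂ ha₂) (hE a k1 c k3 k4) (hE a' l1 c' l3 l4)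
      (Or.inr ⟨hlt a k1 k2, k5⟩) (Or.inr ⟨hlt a' l1 l2, l5⟩))
  obtain ⟨x₂, l, hl⟩ := star (fun a c => a ∈ S ∧ a ≠ a₁ ∧ c ∈ U ∧ G.Adj a c ∧ p c < p b) (by
    rintro a c a' c' ⟨k1, k2, k3, k4, k5⟩ ⟨l1, l2, l3, l4, l5⟩
    have hlt : ∀ a ∈ S, a ≠ a₁ → p a₁ < p a := fun a ha hne =>
      lt_of_le_of_ne (hmin a ha) (fun he => hne (h.inj a₁ (hSU ha₁) a (hSU ha) he).symm)
    exact h.fan a₁ b a c a' c' (hEb a₁ ha₁) (hE a k1 c k3 k4) (hE a' l1 c' l3 l4)
      (Or.inl ⟨hlt a k1 k2, k5⟩) (Or.inl ⟨hlt a' l1 l2, l5⟩))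
  set T : Finset ℕ := S \ {a₁, a₂, x₁, x₂} with hT
  have hTcard : 4 * 3 < T.card := by
    have h1 : S.card - ({a₁, a₂, x₁, x₂} : Finset ℕ).card ≤ T.card := Finset.le_card_sdiff _ _
    have h2 : ({a₁, a₂, x₁, x₂} : Finset ℕ).card ≤ 4 := Finset.card_le_four
    omega
  have hTS : ∀ a ∈ T, a ∈ S ∧ a ≠ a₁ ∧ a ≠ a₂ ∧ a ≠ x₁ ∧ a ≠ x₂ := by
    intro a ha
    rw [hT, Finset.mem_sdiff] at ha
    simp at ha
    exact ⟨ha.1, ha.2.1, ha.2.2.1, ha.2.2.2.1, ha.2.2.2.2⟩
  obtain ⟨y, -, hy⟩ := Finset.exists_lt_card_fiber_of_mul_lt_card_of_maps_to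
    (s := T) (t := (Finset.univ : Finset (Bool × Bool))) (n := 3)
    (f := fun a => (decide (G.Adj a r), decide (G.Adj a l))) (by intro a _; simp)
    (by simpa using hTcard)
  have := hN (T.filter fun a => (decide (G.Adj a r), decide (G.Adj a l)) = y)
    (fun a ha => hSU (hTS a (Finset.mem_filter.mp ha).1).1) (by
      have key : ∀ x ∈ T.filter fun a => (decide (G.Adj a r), decide (G.Adj a l)) = y,
          ∀ z ∈ T.filter fun a => (decide (G.Adj a r), decide (G.Adj a l)) = y,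
          ∀ c ∈ U, G.Adj x c → G.Adj z c := by
        intro x hx z hz c hc hxc
        rw [Finset.mem_filter] at hx hz
        obtain ⟨hxS, hx1, hx2, hx3, hx4⟩ := hTS x hx.1
        obtain ⟨hzS, hz1, hz2, hz3, hz4⟩ := hTS z hz.1
        have heq : (decide (G.Adj x r), decide (G.Adj x l)) =
            (decide (G.Adj z r), decide (G.Adj z l)) := hx.2.trans hz.2.symm
        rw [Prod.mk.injEq, decide_eq_decide, decide_eq_decide] at heq
        rcases lt_trichotomy (p b) (p c) with hlt | he | hgt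
        · have := hr x c ⟨hxS, hx2, hc, hxc, hlt⟩ hx3
          rw [this] at hxc ⊢
          exact heq.1.mp hxc
        · rw [← h.inj b hb c hc he]
          exact (hS z hzS).symm
        · have := hl x c ⟨hxS, hx1, hc, hxc, hgt⟩ hx4
          rw [this] at hxc ⊢
          exact heq.2.mp hxc
      intro x hx z hz c hc
      exact ⟨key x hx z hz c hc, key z hz x hx c hc⟩)
  omega

theorem stmDeg : StmDeg := by
  rintro G U hN ⟨side, p, h⟩ x hx S hSU hS
  cases hs : side x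
  · exact main hN h x hx hs S hSU hS
  · exact main hN (swap h) x hx (by simp [hs]) S hSU hS

end Pool.Agent.N196.FP4
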