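import Pool.Agent.N604.MW.Stm4

/-!
# VD: the Vandermonde bound
-/

set_option autoImplicit false

namespace Pool.Agent.N196.KV

open Finset

/-- the coefficients of `∏ (y - z b)` and the sum of their absolute values -/
theorem coef {ι : Type*} [DecidableEq ι] (z : ι → ℝ) (M : ℝ) (s : Finset ι)
    (hz : ∀ b ∈ s, |z b| ≤ M) :
    ∃ c : ℕ → ℝ, (∀ i, s.card < i → c i = 0) ∧
      (∀ y : ℝ, ∏ b ∈ s, (y - z b) = ∑ i ∈ range (s.card + 1), c i * y ^ i) ∧
      ∑ i ∈ range (s.card + 1), |c i| ≤ (1 + M) ^ s.card := by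
  induction s using Finset.induction_on with
  | empty =>
    refine ⟨fun i => if i = 0 then 1 else 0, ?_, ?_, ?_⟩
    · intro i hi
      have : i ≠ 0 := by
        simp only [Finset.card_empty] at hi
        omega
      simp [this]
    · intro y
      simp
    · simp
  | insert b s hb ih =>
    obtain ⟨c, h0, h1, h2⟩ := ih fun b' hb' => hz b' (Finset.mem_insert_of_mem hb')
    have hzb : |z b| ≤ M := hz b (Finset.mem_insert_self b s)
    rw [Finset.card_insert_of_notMem hb]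
    set n := s.card with hn
    set sh : ℕ → ℝ := fun i => Nat.casesOn i 0 c with hsh
    have hs0 : sh 0 = 0 := rfl
    have hs1 : ∀ i, sh (i + 1) = c i := fun i => rfl
    have hcn : c (n + 1) = 0 := h0 _ (Nat.lt_succ_self n)
    refine ⟨fun i => sh i - z b * c i, ?_, ?_, ?_⟩
    · intro i hi
      obtain ⟨j, rfl⟩ : ∃ j, i = j + 1 := ⟨i - 1, by omega⟩
      show sh (j + 1) - z b * c (j + 1) = 0
      rw [hs1, h0 j (by omega), h0 (j + 1) (by omega)]
      ring
    · intro y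
      rw [Finset.prod_insert hb, h1 y]
      have e1 : ∑ i ∈ range (n + 1 + 1), (sh i - z b * c i) * y ^ i =
          ∑ i ∈ range (n + 1 + 1), sh i * y ^ i - z b * ∑ i ∈ range (n + 1 + 1), c i * y ^ i := by
        rw [Finset.mul_sum, ← Finset.sum_sub_distrib]
        exact Finset.sum_congr rfl fun i _ => by ring
      have e2 : ∑ i ∈ range (n + 1 + 1), sh i * y ^ i = y * ∑ i ∈ range (n + 1), c i * y ^ i := by
        rw [Finset.sum_range_succ', hs0, Finset.mul_sum]
        simp only [hs1]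
        rw [zero_mul, add_zero]
        exact Finset.sum_congr rfl fun i _ => by ring
      have e3 : ∑ i ∈ range (n + 1 + 1), c i * y ^ i = ∑ i ∈ range (n + 1), c i * y ^ i := by
        rw [Finset.sum_range_succ, hcn, zero_mul, add_zero]
      rw [e1, e2, e3]
      ring
    · have e2 : ∑ i ∈ range (n + 1 + 1), |sh i| = ∑ i ∈ range (n + 1), |c i| := by
        rw [Finset.sum_range_succ', hs0, abs_zero, add_zero]
      have e3 : ∑ i ∈ range (n + 1 + 1), |c i| = ∑ i ∈ range (n + 1), |c i| := by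
        rw [Finset.sum_range_succ, hcn, abs_zero, add_zero]
      have hM : 0 ≤ M := le_trans (abs_nonneg _) hzb
      calc ∑ i ∈ range (n + 1 + 1), |sh i - z b * c i|
          ≤ ∑ i ∈ range (n + 1 + 1), (|sh i| + |z b| * |c i|) := by
            refine Finset.sum_le_sum fun i _ => ?_
            rw [← abs_mul]
            exact abs_sub _ _
        _ = ∑ i ∈ range (n + 1), |c i| + |z b| * ∑ i ∈ range (n + 1), |c i| := by
            rw [Finset.sum_add_distrib, ← Finset.mul_sum, e2, e3]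
        _ = (1 + |z b|) * ∑ i ∈ range (n + 1), |c i| := by ring
        _ ≤ (1 + M) * (1 + M) ^ n := by
            refine mul_le_mul (by linarith) h2 (Finset.sum_nonneg fun i _ => abs_nonneg _)
              (by linarith)
        _ = (1 + M) ^ (n + 1) := by ring

theorem main (g k X : ℕ) (T : ℝ) (z : Fin g → ℕ) (B : Fin g → ℝ) (hgk : g ≤ k) (hX : 1 ≤ X)
    (hT : 0 ≤ T) (hz : ∀ a, X ≤ z a ∧ z a ≤ 2 * X) (hinj : Function.Injective z)
    (hB : ∀ l ∈ Finset.Icc 1 k, |∑ a, B a * (z a : ℝ) ^ l| ≤ T) (a : Fin g) :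
    |B a| * (X : ℝ) ^ (k - g + 1) ≤ T * (3 * (X : ℝ)) ^ (g - 1) := by
  have hg : 0 < g := Fin.pos a
  have hX' : (1 : ℝ) ≤ X := by exact_mod_cast hX
  have hcard : (Finset.univ.erase a).card = g - 1 := by
    rw [Finset.card_erase_of_mem (Finset.mem_univ a), Finset.card_univ, Fintype.card_fin]
  obtain ⟨c, -, h1, h2⟩ := coef (fun b : Fin g => (z b : ℝ)) (2 * X) (Finset.univ.erase a)
    (fun b _ => by
      rw [abs_of_nonneg (Nat.cast_nonneg _)]
      exact_mod_cast (hz b).2)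
  rw [hcard] at h1 h2
  -- the value at `z a`
  have hPa : 1 ≤ |∏ b ∈ Finset.univ.erase a, ((z a : ℝ) - z b)| := by
    rw [Finset.abs_prod]
    refine Finset.prod_induction _ (fun x : ℝ => 1 ≤ x)
      (fun x y hx hy => one_le_mul_of_one_le_of_one_le hx hy) (le_refl 1) fun b hb => ?_
    have hne : (z a : ℤ) - z b ≠ 0 := by
      intro h
      have h' : z a = z b := by omega
      exact (Finset.mem_erase.1 hb).1 (hinj h').symm
    have h' : (1 : ℤ) ≤ |(z a : ℤ) - z b| := Int.one_le_abs hne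
    exact_mod_cast h'
  have hsum : ∑ i ∈ range (g - 1 + 1), c i * ∑ b, B b * (z b : ℝ) ^ (k - g + 1 + i) =
      B a * (z a : ℝ) ^ (k - g + 1) * ∏ b ∈ Finset.univ.erase a, ((z a : ℝ) - z b) := by
    have e1 : ∑ i ∈ range (g - 1 + 1), c i * ∑ b, B b * (z b : ℝ) ^ (k - g + 1 + i) =
        ∑ b, B b * (z b : ℝ) ^ (k - g + 1) *
          ∏ b' ∈ Finset.univ.erase a, ((z b : ℝ) - z b') := by
      simp only [h1, Finset.mul_sum]
      rw [Finset.sum_comm]
      refine Finset.sum_congr rfl fun b _ => Finset.sum_congr rfl fun i _ => ?_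
      rw [pow_add]
      ring
    rw [e1]
    refine Finset.sum_eq_single a (fun b _ hb => ?_) (fun h => absurd (Finset.mem_univ a) h)
    rw [Finset.prod_eq_zero (Finset.mem_erase.2 ⟨hb, Finset.mem_univ b⟩) (sub_self _), mul_zero]
  have hle : |B a * (z a : ℝ) ^ (k - g + 1) * ∏ b ∈ Finset.univ.erase a, ((z a : ℝ) - z b)| ≤
      T * (3 * (X : ℝ)) ^ (g - 1) := by
    rw [← hsum]
    calc |∑ i ∈ range (g - 1 + 1), c i * ∑ b, B b * (z b : ℝ) ^ (k - g + 1 + i)|
        ≤ ∑ i ∈ range (g - 1 + 1), |c i * ∑ b, B b * (z b : ℝ) ^ (k - g + 1 + i)| :=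
          Finset.abs_sum_le_sum_abs _ _
      _ ≤ ∑ i ∈ range (g - 1 + 1), |c i| * T := by
          refine Finset.sum_le_sum fun i hi => ?_
          rw [abs_mul]
          have hi' := Finset.mem_range.1 hi
          exact mul_le_mul_of_nonneg_left (hB _ (Finset.mem_Icc.2 (by omega))) (abs_nonneg _)
      _ = T * ∑ i ∈ range (g - 1 + 1), |c i| := by rw [← Finset.sum_mul, mul_comm]
      _ ≤ T * (1 + 2 * (X : ℝ)) ^ (g - 1) := mul_le_mul_of_nonneg_left h2 hT
      _ ≤ T * (3 * (X : ℝ)) ^ (g - 1) :=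
          mul_le_mul_of_nonneg_left (pow_le_pow_left₀ (by linarith) (by linarith) _) hT
  refine le_trans ?_ hle
  rw [abs_mul, abs_mul, abs_of_nonneg (a := (z a : ℝ) ^ (k - g + 1)) (by positivity)]
  have h3 : (X : ℝ) ^ (k - g + 1) ≤ (z a : ℝ) ^ (k - g + 1) :=
    pow_le_pow_left₀ (by linarith) (by exact_mod_cast (hz a).1) _
  calc |B a| * (X : ℝ) ^ (k - g + 1) ≤ |B a| * (z a : ℝ) ^ (k - g + 1) :=
        mul_le_mul_of_nonneg_left h3 (abs_nonneg _)
    _ = |B a| * (z a : ℝ) ^ (k - g + 1) * 1 := (mul_one _).symm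
    _ ≤ _ := mul_le_mul_of_nonneg_left hPa (by positivity)

theorem vd : Pool.Agent.N604.MW.S_VD := by
  intro g k hgk
  refine ⟨3 ^ g, by positivity, ?_⟩
  intro X T z B hX hT hz hinj hB a
  have hg : 0 < g := Fin.pos a
  have hX' : (0 : ℝ) < X := by exact_mod_cast hX
  have h := main g k X T z B hgk hX hT hz hinj hB a
  have e : (X : ℝ) ^ (2 * (g : ℝ) - 2 - k) = (X : ℝ) ^ (g - 1) / (X : ℝ) ^ (k - g + 1) := by
    rw [← Real.rpow_natCast, ← Real.rpow_natCast, ← Real.rpow_sub hX']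
    congr 1
    push_cast [Nat.cast_sub hgk, Nat.cast_sub (show 1 ≤ g from hg)]
    ring
  rw [e, ← mul_div_assoc, le_div_iff₀ (by positivity)]
  refine le_trans h ?_
  have h3 : (3 : ℝ) ^ (g - 1) ≤ 3 ^ g := pow_le_pow_right₀ (by norm_num) (by omega)
  calc T * (3 * (X : ℝ)) ^ (g - 1) = 3 ^ (g - 1) * (T * (X : ℝ) ^ (g - 1)) := by
        rw [mul_pow]
        ring
    _ ≤ 3 ^ g * (T * (X : ℝ) ^ (g - 1)) := mul_le_mul_of_nonneg_right h3 (by positivity)
    _ = 3 ^ g * T * (X : ℝ) ^ (g - 1) := by ring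

end Pool.Agent.N196.KV
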